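import Pool.Agent.H80.E4

/-!
# Condition `C(N,n)` for finite groups with composition factors of bounded linear degree

Problem MP_322c76_al (Q1).  `powSub G n` is the subgroup `G^n` generated by the `n`-th powers,
`CondC a N n` is the condition `C(N,n)` for the generating family `a`, `SmallTop n M s G` says
that `G/G^n` has at most `M` elements or is soluble of derived length at most `s`, and
`HasBigFactor r G` says that some simple quotient of a normal subgroup of `G` is non-abelian and
embeds in `GL_r(R)` for no commutative ring `R`.
-/

namespace Pool.Agent.Results.MP_322c76_al.BoundedFactors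

open Pool.Agent.H80.E2 Pool.Agent.H80.E4

universe u v

/-- **Result.** For all `k`, `n ≥ 1`, `M`, `s`, `r` there is `N` such that every finite group `G`
generated by `k` elements and satisfying `C(N,n)`, with `G/G^n` small and all non-abelian
composition factors linear of degree `r`, satisfies `g^n = 1` for all `g`. -/
theorem result (k n M s r : ℕ) (hn : 0 < n) :
    ∃ N : ℕ, ∀ (G : Type u) [Group G] [Finite G] (a : Fin k → G),
      Subgroup.closure (Set.range a) = ⊤ → CondC a N n → SmallTop n M s G →
        ¬ HasBigFactor.{u, v} r G → ∀ g : G, g ^ n = 1 :=
  thmD hn M s r

end Pool.Agent.Results.MP_322c76_al.BoundedFactors
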