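import Pool.Agent.H80.Q2

/-!
# An explicit bound in condition `C(N,n)`, independent of the number of generators

Problem MP_322c76_al (Q1).  `powSub G n` is the subgroup `G^n` generated by the `n`-th powers and
`CondS A N n` is the condition `C(N,n)` for the generating set `A`, which may be infinite.
-/

namespace Pool.Agent.Results.MP_322c76_al.ExplicitBound

open Pool.Agent.H80.E2 Pool.Agent.H80.Q2

universe u v

/-- **Result.** Put `s = r M` and `N = s * binom(s² + n - 2, n - 1)`.  Let `G` be a group (finite
or infinite) generated by a set `A` of any cardinality and satisfying `C(N,n)`, and let `H` be a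
subgroup of index at most `M`.  Then `H` contains `G^n`, and every homomorphism from `H` to
`GL_r(R)`, `R` a reduced commutative ring, is trivial on `G^n`. -/
theorem result (n r M : ℕ) (hn : 0 < n) (hr : 0 < r) (G : Type u) [Group G] (A : Set G)
    (hA : Subgroup.closure A = ⊤)
    (hC : CondS A ((r * M) * ((r * M) ^ 2 + n - 2).choose (n - 1)) n)
    (H : Subgroup G) (h0 : H.index ≠ 0) (hM : H.index ≤ M) :
    powSub G n ≤ H ∧
      ∀ (R : Type v) [CommRing R] [IsReduced R] (ρ : H →* Matrix.GeneralLinearGroup (Fin r) R)
        (x : H), (x : G) ∈ powSub G n → ρ x = 1 :=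
  thmQ hn hr A hA hC H h0 hM

end Pool.Agent.Results.MP_322c76_al.ExplicitBound
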