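import Pool.Agent.H80.T6

/-!
# A lower bound for `N(k,n)` in terms of groups of exponent `r`, `r` a proper divisor of `n`

Problem MP_322c76_al (Q1).  `CondC a N n` is the condition `C(N,n)` for the generating family `a`,
and `Fails k n N L` says that there is a finite group generated by `k` distinct elements which
satisfies `C(N,n)` and whose exponent is greater than `n` and divisible by `L`.
-/

namespace Pool.Agent.Results.MP_322c76_al.LowerBound

open Pool.Agent.H80.E2 Pool.Agent.H80.T6

/-- **Result.** Let `n = m r` with `m ≥ 2`, `k ≥ 2`.  If there is a finite group `Q` generated by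
`k` distinct elements with `q^r = 1` for all `q`, of order greater than `r N² (k+1)^N + 1`
(for instance, if `r^k > r N² (k+1)^N + 1`), then for every `L ≥ 1` there is a finite group `G`
generated by `k` distinct elements which satisfies `C(N,n)` and whose exponent is greater than `n`
and divisible by `L`. -/
theorem result (k m r N L : ℕ) (hk : 2 ≤ k) (hm : 2 ≤ m) (hr : 0 < r) (hL : 0 < L) :
    (∀ (Q : Type) [Group Q] [Finite Q] (y : Fin k → Q), Function.Injective y →
      Subgroup.closure (Set.range y) = ⊤ → (∀ q : Q, q ^ r = 1) →
        r * N ^ 2 * (k + 1) ^ N + 1 < Nat.card Q → Fails k (m * r) N L) ∧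
    (r * N ^ 2 * (k + 1) ^ N + 1 < r ^ k → Fails k (m * r) N L) :=
  ⟨fun Q _ _ y hy hgen hexp hcard => main k m r N L hk hm hr hL Q y hy hgen hexp hcard,
    fun hcard => abelian k m r N L hk hm hr hL hcard⟩

end Pool.Agent.Results.MP_322c76_al.LowerBound
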