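import Pool.Agent.H80.T5

/-!
# A tower-type lower bound for `N(2,n)`

Problem MP_322c76_al (Q1).  `CondC a N n` is the condition `C(N,n)` for the generating family `a`,
and `tower s i` is the tower of `i` many `s`'s: `tower s 0 = 1`, `tower s (i+1) = s^(tower s i)`.
-/

namespace Pool.Agent.Results.MP_322c76_al.TowerBound

open Pool.Agent.H80.E2 Pool.Agent.H80.T4

/-- **Result.** Let `m, s ≥ 2`, `i ≥ 0` and let `n ≥ 1` be divisible by `m s^(i+1)`.  Then there
is a finite group generated by two distinct elements which satisfies `C(N,n)` for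
`N = ⌊tower s i / 4⌋` but has exponent greater than `n`. -/
theorem result (m s i n : ℕ) (hm : 2 ≤ m) (hs : 2 ≤ s) (hn : 0 < n)
    (hdvd : m * s ^ (i + 1) ∣ n) :
    ∃ (G : Type) (_ : Group G) (_ : Finite G) (a : Fin 2 → G),
      Function.Injective a ∧ Subgroup.closure (Set.range a) = ⊤ ∧
      CondC a (tower s i / 4) n ∧ n < Monoid.exponent G :=
  Pool.Agent.H80.T5.towerBound m s i n hm hs hn hdvd

end Pool.Agent.Results.MP_322c76_al.TowerBound
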